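import Mathlib

/-!
# No maximal geometrically nilpotent subvariety

Over every finite field `F` the polynomial self-map
`T (x, y, z) = ((z - x) x y ^ 2, (z - x) y ^ 2 z, (z - x) y z ^ 2)` of affine three-space has, for
every `e`, the geometrically nilpotent curve `y = x ^ (p ^ e), z = 1`, and no single geometrically
nilpotent subvariety accounts for all of them.
-/

open MvPolynomial

namespace Pool.Agent.Results.MP_b41bf9_ag.NoMaximal

/-- The self-map of the geometric points of affine `n`-space over `F` given by the polynomials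
`f 0, ..., f (n - 1)` over `F`. -/
noncomputable def polyMap {F : Type*} [Field F] {n : ℕ} (f : Fin n → MvPolynomial (Fin n) F)
    (v : Fin n → AlgebraicClosure F) : Fin n → AlgebraicClosure F :=
  fun i => aeval v (f i)

/-- The geometric points of the closed subvariety of affine `n`-space over `F` defined by the
vanishing of all polynomials in `S`. -/
def geomPoints {F : Type*} [Field F] {n : ℕ} (S : Set (MvPolynomial (Fin n) F)) :
    Set (Fin n → AlgebraicClosure F) :=
  {v | ∀ h ∈ S, aeval v h = 0}

/-- `Y` is (the set of geometric points of) a closed subvariety of affine space defined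
over `F`. -/
def IsSubvar {F : Type*} [Field F] {n : ℕ} (Y : Set (Fin n → AlgebraicClosure F)) : Prop :=
  ∃ S : Set (MvPolynomial (Fin n) F), Y = geomPoints S

/-- `Z` is an irreducible closed subvariety over `F`. -/
def IsIrredSubvar {F : Type*} [Field F] {n : ℕ} (Z : Set (Fin n → AlgebraicClosure F)) : Prop :=
  IsSubvar Z ∧ Z.Nonempty ∧
    ∀ A B : Set (Fin n → AlgebraicClosure F), IsSubvar A → IsSubvar B →
      Z ⊆ A ∪ B → Z ⊆ A ∨ Z ⊆ B

/-- `Z` is an irreducible component of the closed subvariety `Y`. -/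
def IsComponent {F : Type*} [Field F] {n : ℕ} (Z Y : Set (Fin n → AlgebraicClosure F)) : Prop :=
  IsIrredSubvar Z ∧ Z ⊆ Y ∧
    ∀ Z' : Set (Fin n → AlgebraicClosure F), IsIrredSubvar Z' → Z' ⊆ Y → Z ⊆ Z' → Z' = Z

/-- The closed subvariety `Y` (possibly empty or reducible) is geometrically nilpotent for `T`:
for each irreducible component `Z` of `Y` there is a fixed point `P` to which every geometric
point of `Z` is mapped by some iterate. -/
def IsGeomNilp {F : Type*} [Field F] {n : ℕ}
    (T : (Fin n → AlgebraicClosure F) → (Fin n → AlgebraicClosure F))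
    (Y : Set (Fin n → AlgebraicClosure F)) : Prop :=
  IsSubvar Y ∧ ∀ Z, IsComponent Z Y → ∃ P, T P = P ∧ ∀ y ∈ Z, ∃ n, 1 ≤ n ∧ (T^[n]) y = P

section Components

variable {F : Type*} [Field F] {n : ℕ}

/-- Zariski closure over `F`. -/
def cl (W : Set (Fin n → AlgebraicClosure F)) : Set (Fin n → AlgebraicClosure F) :=
  geomPoints {h : MvPolynomial (Fin n) F | ∀ w ∈ W, aeval w h = 0}

lemma subset_cl (W : Set (Fin n → AlgebraicClosure F)) : W ⊆ cl W :=
  fun w hw _ hh => hh w hw

lemma cl_subset {W A : Set (Fin n → AlgebraicClosure F)} (hA : IsSubvar A) (h : W ⊆ A) :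
    cl W ⊆ A := by
  obtain ⟨S, rfl⟩ := hA
  intro v hv s hs
  exact hv s (fun w hw => h hw s hs)

lemma isSubvar_cl (W : Set (Fin n → AlgebraicClosure F)) : IsSubvar (cl W) := ⟨_, rfl⟩

/-- Every point of a closed subvariety lies on an irreducible component. -/
lemma exists_component {Y : Set (Fin n → AlgebraicClosure F)} (hY : IsSubvar Y)
    {y : Fin n → AlgebraicClosure F} (hy : y ∈ Y) : ∃ Z, IsComponent Z Y ∧ y ∈ Z := by
  have h0 : cl {y} ∈ {Z : Set (Fin n → AlgebraicClosure F) | IsIrredSubvar Z ∧ Z ⊆ Y} := by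
    refine ⟨⟨isSubvar_cl _, ⟨y, subset_cl _ rfl⟩, ?_⟩, cl_subset hY (by simpa using hy)⟩
    intro A B hA hB hAB
    rcases hAB (subset_cl _ rfl) with h | h
    · exact Or.inl (cl_subset hA (by simpa using h))
    · exact Or.inr (cl_subset hB (by simpa using h))
  have hch : ∀ c ⊆ {Z : Set (Fin n → AlgebraicClosure F) | IsIrredSubvar Z ∧ Z ⊆ Y},
      IsChain (fun x1 x2 => x1 ⊆ x2) c → c.Nonempty →
      ∃ ub ∈ {Z : Set (Fin n → AlgebraicClosure F) | IsIrredSubvar Z ∧ Z ⊆ Y},
        ∀ s ∈ c, s ⊆ ub := by
    intro c hc hchain hne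
    refine ⟨cl (⋃₀ c), ⟨⟨isSubvar_cl _, ?_, ?_⟩, cl_subset hY ?_⟩, ?_⟩
    · obtain ⟨Z, hZ⟩ := hne
      obtain ⟨z, hz⟩ := (hc hZ).1.2.1
      exact ⟨z, subset_cl _ ⟨Z, hZ, hz⟩⟩
    · intro A B hA hB hAB
      by_contra hcon
      rw [not_or] at hcon
      obtain ⟨h1, h2⟩ := hcon
      have h1' : ¬ (⋃₀ c ⊆ A) := fun h => h1 (cl_subset hA h)
      have h2' : ¬ (⋃₀ c ⊆ B) := fun h => h2 (cl_subset hB h)
      rw [Set.sUnion_subset_iff] at h1' h2'
      push Not at h1' h2'
      obtain ⟨Z1, hZ1, hn1⟩ := h1'
      obtain ⟨Z2, hZ2, hn2⟩ := h2'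
      have key : ∃ Z3 ∈ c, ¬ Z3 ⊆ A ∧ ¬ Z3 ⊆ B := by
        rcases hchain.total hZ1 hZ2 with h | h
        · exact ⟨Z2, hZ2, fun h' => hn1 (h.trans h'), hn2⟩
        · exact ⟨Z1, hZ1, hn1, fun h' => hn2 (h.trans h')⟩
      obtain ⟨Z3, hZ3, ha, hb⟩ := key
      have hsub : Z3 ⊆ A ∪ B := fun z hz => hAB (subset_cl _ ⟨Z3, hZ3, hz⟩)
      rcases (hc hZ3).1.2.2 A B hA hB hsub with h | h
      · exact ha h
      · exact hb h
    · rw [Set.sUnion_subset_iff]
      intro Z hZ
      exact (hc hZ).2
    · intro Z hZ z hz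
      exact subset_cl _ ⟨Z, hZ, hz⟩
  obtain ⟨Z, hZ, hmax⟩ := zorn_subset_nonempty
    {Z : Set (Fin n → AlgebraicClosure F) | IsIrredSubvar Z ∧ Z ⊆ Y} hch _ h0
  refine ⟨Z, ⟨hmax.prop.1, hmax.prop.2, ?_⟩, hZ (subset_cl _ rfl)⟩
  intro Z' h1 h2 h3
  exact Set.Subset.antisymm (hmax.le_of_ge ⟨h1, h2⟩ h3) h3

/-- All points of a geometrically nilpotent subvariety are eventually fixed. -/
lemma IsGeomNilp.eventually_fixed {T : (Fin n → AlgebraicClosure F) → (Fin n → AlgebraicClosure F)}
    {Y : Set (Fin n → AlgebraicClosure F)} (h : IsGeomNilp T Y) {y : Fin n → AlgebraicClosure F}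
    (hy : y ∈ Y) : ∃ m, T ((T^[m]) y) = (T^[m]) y := by
  obtain ⟨Z, hZ, hyZ⟩ := exists_component h.1 hy
  obtain ⟨P, hP, hall⟩ := h.2 Z hZ
  obtain ⟨m, _, hm⟩ := hall y hyZ
  exact ⟨m, by rw [hm, hP]⟩

/-- A closed subvariety all of whose points reach the fixed point `P` is geometrically
nilpotent. -/
lemma isGeomNilp_of_forall {T : (Fin n → AlgebraicClosure F) → (Fin n → AlgebraicClosure F)}
    {Y : Set (Fin n → AlgebraicClosure F)} (hY : IsSubvar Y) {P : Fin n → AlgebraicClosure F}
    (hP : T P = P) (h : ∀ y ∈ Y, ∃ n, 1 ≤ n ∧ (T^[n]) y = P) : IsGeomNilp T Y :=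
  ⟨hY, fun _ hZ => ⟨P, hP, fun y hy => h y (hZ.2.1 hy)⟩⟩

end Components

section Elimination

variable {A : Type*} [CommRing A] [IsDomain A]

/-- Pseudo-division. -/
lemma pseudo_div (Γ : Polynomial A) (hΓ : Γ ≠ 0) : ∀ (n : ℕ) (h : Polynomial A), h.natDegree < n →
    ∃ (k : ℕ) (q r : Polynomial A), Polynomial.C (Γ.leadingCoeff ^ k) * h = Γ * q + r ∧
      (r = 0 ∨ r.natDegree < Γ.natDegree) := by
  intro n
  induction n with
  | zero => intro h hh; omega
  | succ n ih =>
    intro h hh
    by_cases hlt : h.natDegree < Γ.natDegree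
    · exact ⟨0, 0, h, by simp, Or.inr hlt⟩
    · by_cases h0 : h = 0
      · exact ⟨0, 0, 0, by simp [h0], Or.inl rfl⟩
      have hle : Γ.natDegree ≤ h.natDegree := not_lt.1 hlt
      have hlc : Γ.leadingCoeff ≠ 0 := Polynomial.leadingCoeff_ne_zero.2 hΓ
      have hlch : h.leadingCoeff ≠ 0 := Polynomial.leadingCoeff_ne_zero.2 h0
      set d := h.natDegree - Γ.natDegree with hd
      set u : Polynomial A := Polynomial.C Γ.leadingCoeff * h with hu
      set w : Polynomial A := Polynomial.C h.leadingCoeff * Polynomial.X ^ d * Γ with hw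
      have hu0 : u ≠ 0 := mul_ne_zero (Polynomial.C_ne_zero.2 hlc) h0
      have hw0 : w ≠ 0 := mul_ne_zero (mul_ne_zero (Polynomial.C_ne_zero.2 hlch) (pow_ne_zero _ Polynomial.X_ne_zero)) hΓ
      have hud : u.natDegree = h.natDegree := by
        rw [hu, Polynomial.natDegree_C_mul hlc]
      have hwd : w.natDegree = h.natDegree := by
        rw [hw, Polynomial.natDegree_mul (mul_ne_zero (Polynomial.C_ne_zero.2 hlch) (pow_ne_zero _ Polynomial.X_ne_zero)) hΓ,
          Polynomial.natDegree_C_mul hlch, Polynomial.natDegree_X_pow]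
        omega
      have hdeg : u.degree = w.degree := by
        rw [Polynomial.degree_eq_natDegree hu0, Polynomial.degree_eq_natDegree hw0, hud, hwd]
      have hlcs : u.leadingCoeff = w.leadingCoeff := by
        rw [hu, hw]
        simp only [Polynomial.leadingCoeff_mul, Polynomial.leadingCoeff_C, Polynomial.leadingCoeff_X_pow]
        ring
      by_cases hz : u - w = 0
      · refine ⟨1, Polynomial.C h.leadingCoeff * Polynomial.X ^ d, 0, ?_, Or.inl rfl⟩
        rw [pow_one, add_zero, mul_comm Γ]
        exact sub_eq_zero.1 hz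
      · have hlt' := Polynomial.degree_sub_lt_left hdeg hu0 hlcs
        have hlt2 : (u - w).natDegree < n := by
          have := Polynomial.natDegree_lt_natDegree hz hlt'
          omega
        obtain ⟨k, q, r, hk, hr⟩ := ih (u - w) hlt2
        refine ⟨k + 1, q + Polynomial.C (Γ.leadingCoeff ^ k) * (Polynomial.C h.leadingCoeff * Polynomial.X ^ d), r, ?_, hr⟩
        have e1 : Polynomial.C (Γ.leadingCoeff ^ (k + 1)) * h = Polynomial.C (Γ.leadingCoeff ^ k) * u := by
          rw [hu, pow_succ, Polynomial.C_mul]; ring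
        have e2 : Polynomial.C (Γ.leadingCoeff ^ k) * u =
            Polynomial.C (Γ.leadingCoeff ^ k) * (u - w) + Polynomial.C (Γ.leadingCoeff ^ k) * w := by ring
        rw [e1, e2, hk, hw]
        ring

end Elimination

section Cone

variable {F : Type*} [Field F]

/-- The substitution `(x, y, z) = (l X, l Y, l)`. -/
noncomputable def sub3 (F : Type*) [Field F] :
    MvPolynomial (Fin 3) F →ₐ[F] Polynomial (MvPolynomial (Fin 2) F) :=
  aeval ![Polynomial.X * Polynomial.C (X 0), Polynomial.X * Polynomial.C (X 1), Polynomial.X]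

/-- Evaluation at `(a, b)` and `l`. -/
noncomputable def ev3 (a b l : AlgebraicClosure F) :
    Polynomial (MvPolynomial (Fin 2) F) →+* AlgebraicClosure F :=
  Polynomial.eval₂RingHom (aeval ![a, b] : MvPolynomial (Fin 2) F →ₐ[F] _).toRingHom l

lemma ev3_C (a b l : AlgebraicClosure F) (c : MvPolynomial (Fin 2) F) :
    ev3 a b l (Polynomial.C c) = aeval ![a, b] c := by
  simp [ev3]

lemma ev3_X (a b l : AlgebraicClosure F) : ev3 a b l Polynomial.X = l := by
  simp [ev3]

lemma ev3_sub3 (a b l : AlgebraicClosure F) (h : MvPolynomial (Fin 3) F) :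
    ev3 a b l (sub3 F h) = aeval ![l * a, l * b, l] h := by
  induction h using MvPolynomial.induction_on with
  | C c =>
    have h1 : sub3 F (C c) = algebraMap F _ c := (sub3 F).commutes c
    have h2 : (algebraMap F (Polynomial (MvPolynomial (Fin 2) F)) c) =
        Polynomial.C (algebraMap F (MvPolynomial (Fin 2) F) c) := rfl
    rw [h1, h2, ev3_C]
    simp
  | add p q hp hq => simp only [map_add, hp, hq]
  | mul_X p i hp =>
    rw [map_mul, map_mul, hp, map_mul]
    congr 1
    have : sub3 F (X i) = (![Polynomial.X * Polynomial.C (X 0), Polynomial.X * Polynomial.C (X 1),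
      Polynomial.X] : Fin 3 → Polynomial (MvPolynomial (Fin 2) F)) i := by
      simp [sub3]
    rw [this]
    fin_cases i
    · simp [ev3_C, ev3_X]
      ring
    · simp [ev3_C, ev3_X]
      ring
    · simp [ev3_X]

/-- **Elimination.**  Either the directions of the points of `V(S)` outside the plane `z = 0` lie
on a plane curve, or `V(S)` has a point in almost every direction. -/
lemma elimination (S : Set (MvPolynomial (Fin 3) F)) :
    (∃ a : MvPolynomial (Fin 2) F, a ≠ 0 ∧ ∀ x y l : AlgebraicClosure F, l ≠ 0 →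
      ![l * x, l * y, l] ∈ geomPoints S → aeval ![x, y] a = 0) ∨
    (∃ b : MvPolynomial (Fin 2) F, b ≠ 0 ∧ ∀ x y : AlgebraicClosure F, aeval ![x, y] b ≠ 0 →
      ∃ l : AlgebraicClosure F, l ≠ 0 ∧ ![l * x, l * y, l] ∈ geomPoints S) := by
  classical
  set I : Ideal (Polynomial (MvPolynomial (Fin 2) F)) := Ideal.span (sub3 F '' S) with hI
  -- elements of `I` vanish on points of `V(S)`
  have hvan : ∀ x y l : AlgebraicClosure F, ![l * x, l * y, l] ∈ geomPoints S → ∀ g ∈ I,
      ev3 x y l g = 0 := by
    intro x y l hmem g hg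
    have : I ≤ RingHom.ker (ev3 x y l) := by
      rw [hI, Ideal.span_le]
      rintro _ ⟨h, hh, rfl⟩
      rw [SetLike.mem_coe, RingHom.mem_ker, ev3_sub3]
      exact hmem h hh
    exact this hg
  -- saturation
  let P : ℕ → Prop := fun d => ∃ g : Polynomial (MvPolynomial (Fin 2) F), g ≠ 0 ∧
    g.natDegree = d ∧ ∃ N : ℕ, Polynomial.X ^ N * g ∈ I
  by_cases hP : ∃ d, P d
  · obtain ⟨g, hg0, hgd, N, hgI⟩ := Nat.find_spec hP
    have hmin : ∀ m, m < Nat.find hP → ¬ P m := fun m hm => Nat.find_min hP hm
    set d := Nat.find hP with hd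
    rcases Nat.eq_zero_or_pos d with h0 | hpos
    · -- a polynomial of degree zero
      left
      rw [h0] at hgd
      obtain ⟨a, rfl⟩ : ∃ a, g = Polynomial.C a := ⟨_, Polynomial.eq_C_of_natDegree_eq_zero hgd⟩
      refine ⟨a, by simpa using hg0, ?_⟩
      intro x y l hl hmem
      have := hvan x y l hmem _ hgI
      rw [map_mul, map_pow, ev3_X, ev3_C] at this
      rcases mul_eq_zero.1 this with h | h
      · exact absurd h (pow_ne_zero _ hl)
      · exact h
    · right
      -- the constant coefficient is nonzero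
      have hc0 : g.coeff 0 ≠ 0 := by
        intro hc
        obtain ⟨g', hg'⟩ := Polynomial.X_dvd_iff.2 hc
        have hg'0 : g' ≠ 0 := by
          rintro rfl
          exact hg0 (by simpa using hg')
        refine hmin g'.natDegree ?_ ⟨g', hg'0, rfl, N + 1, ?_⟩
        · have : g.natDegree = g'.natDegree + 1 := by
            rw [hg', Polynomial.natDegree_mul Polynomial.X_ne_zero hg'0, Polynomial.natDegree_X,
              add_comm]
          omega
        · rw [pow_succ, mul_assoc, ← hg']
          exact hgI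
      have hlc : g.leadingCoeff ≠ 0 := Polynomial.leadingCoeff_ne_zero.2 hg0
      refine ⟨g.leadingCoeff * g.coeff 0, mul_ne_zero hlc hc0, ?_⟩
      intro x y hxy
      rw [map_mul] at hxy
      obtain ⟨hx1, hx2⟩ := mul_ne_zero_iff.1 hxy
      -- a nonzero root
      set gg : Polynomial (AlgebraicClosure F) :=
        g.map (aeval ![x, y] : MvPolynomial (Fin 2) F →ₐ[F] _).toRingHom with hgg
      have hggd : gg.natDegree = g.natDegree := by
        rw [hgg]
        apply Polynomial.natDegree_map_of_leadingCoeff_ne_zero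
        exact hx1
      have hgg0 : gg.degree ≠ 0 := by
        intro h
        have h5 : gg.natDegree = 0 :=
          Polynomial.natDegree_eq_zero_iff_degree_le_zero.2 (le_of_eq h)
        omega
      obtain ⟨l, hl⟩ := IsAlgClosed.exists_root gg hgg0
      have hlev : ev3 x y l g = 0 := by
        have : ev3 x y l g = gg.eval l := by
          rw [hgg, Polynomial.eval_map]
          rfl
        rw [this]; exact hl
      have hl0 : l ≠ 0 := by
        rintro rfl
        apply hx2
        have h1 : gg.eval 0 = 0 := hl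
        rw [← Polynomial.coeff_zero_eq_eval_zero, hgg, Polynomial.coeff_map] at h1
        exact h1
      refine ⟨l, hl0, ?_⟩
      intro h hh
      rw [← ev3_sub3]
      -- pseudo-division of `h` by `g`
      obtain ⟨k, q, r, hk, hr⟩ := pseudo_div g hg0 ((sub3 F h).natDegree + 1) (sub3 F h)
        (Nat.lt_succ_self _)
      have hhI : sub3 F h ∈ I := Ideal.subset_span ⟨h, hh, rfl⟩
      have hrI : Polynomial.X ^ N * r ∈ I := by
        have : Polynomial.X ^ N * r =
            (Polynomial.X ^ N * Polynomial.C (g.leadingCoeff ^ k)) * sub3 F h -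
              q * (Polynomial.X ^ N * g) := by
          have : r = Polynomial.C (g.leadingCoeff ^ k) * sub3 F h - g * q := by rw [hk]; ring
          rw [this]; ring
        rw [this]
        exact I.sub_mem (I.mul_mem_left _ hhI) (I.mul_mem_left _ hgI)
      have hr0 : r = 0 := by
        by_contra hne
        rcases hr with h | h
        · exact hne h
        · exact hmin r.natDegree (by omega) ⟨r, hne, rfl, N, hrI⟩
      rw [hr0, add_zero] at hk
      have := congrArg (ev3 x y l) hk
      rw [map_mul, map_mul, hlev, zero_mul, ev3_C, map_pow] at this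
      rcases mul_eq_zero.1 this with h' | h'
      · exact absurd h' (pow_ne_zero _ hx1)
      · exact h'
  · -- all equations are zero
    right
    refine ⟨1, one_ne_zero, ?_⟩
    intro x y _
    refine ⟨1, one_ne_zero, ?_⟩
    intro h hh
    have hz : sub3 F h = 0 := by
      by_contra hne
      exact hP ⟨_, sub3 F h, hne, rfl, 0, by
        rw [pow_zero, one_mul]; exact Ideal.subset_span ⟨h, hh, rfl⟩⟩
    rw [← ev3_sub3, hz, map_zero]

end Cone

section TheMap

variable (F : Type*) [Field F]

/-- The map. -/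
noncomputable def ff : Fin 3 → MvPolynomial (Fin 3) F :=
  ![(X 2 - X 0) * X 0 * X 1 ^ 2, (X 2 - X 0) * X 1 ^ 2 * X 2, (X 2 - X 0) * X 1 * X 2 ^ 2]

variable {F}

lemma ff_apply (v : Fin 3 → AlgebraicClosure F) : polyMap (ff F) v =
    ![(v 2 - v 0) * v 0 * v 1 ^ 2, (v 2 - v 0) * v 1 ^ 2 * v 2, (v 2 - v 0) * v 1 * v 2 ^ 2] := by
  funext i
  fin_cases i <;> simp [polyMap, ff]

/-- The scaling factor. -/
def lam {K : Type*} [Field K] (l x y : K) : ℕ → K
  | 0 => l
  | n + 1 => (lam l x y n) ^ 4 * (1 - x * y ^ n) * y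

lemma iter (l x y : AlgebraicClosure F) (n : ℕ) :
    (polyMap (ff F))^[n] ![l * x, l * y, l] =
      ![lam l x y n * (x * y ^ n), lam l x y n * y, lam l x y n] := by
  induction n with
  | zero => simp [lam]
  | succ n ih =>
    rw [Function.iterate_succ_apply', ih, ff_apply]
    funext i
    fin_cases i <;> simp [lam] <;> ring

lemma lam_ne_zero {K : Type*} [Field K] {l x y : K} (hl : l ≠ 0) (hy : y ≠ 0) {n : ℕ}
    (h : ∀ j < n, x * y ^ j ≠ 1) : lam l x y n ≠ 0 := by
  induction n with
  | zero => exact hl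
  | succ n ih =>
    rw [lam]
    refine mul_ne_zero (mul_ne_zero (pow_ne_zero _ (ih fun j hj => h j (by omega))) ?_) hy
    exact sub_ne_zero.2 (h n (by omega)).symm

lemma not_eventually_fixed {l x y : AlgebraicClosure F} (hl : l ≠ 0) (hx : x ≠ 0) (hy : y ≠ 0)
    (hy1 : y ≠ 1) (h : ∀ j : ℕ, x * y ^ j ≠ 1) (m : ℕ) :
    polyMap (ff F) ((polyMap (ff F))^[m] ![l * x, l * y, l]) ≠
      (polyMap (ff F))^[m] ![l * x, l * y, l] := by
  rw [← Function.iterate_succ_apply' (polyMap (ff F)), iter, iter]
  intro he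
  have h2 : lam l x y (m + 1) = lam l x y m := by simpa using congrFun he 2
  have h0 : lam l x y (m + 1) * (x * y ^ (m + 1)) = lam l x y m * (x * y ^ m) := by
    simpa using congrFun he 0
  rw [h2] at h0
  have hne := lam_ne_zero (l := l) hl hy (n := m) fun j _ => h j
  have h3 := mul_left_cancel₀ hne h0
  have h4 := mul_left_cancel₀ hx h3
  rw [pow_succ] at h4
  have h5 : y ^ m * y = y ^ m * 1 := by rw [mul_one]; exact h4
  exact hy1 (mul_left_cancel₀ (pow_ne_zero _ hy) h5)

end TheMap

section FiniteField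

variable {F : Type*} [Field F] [Finite F]

lemma exists_frob (p : ℕ) [hp : Fact p.Prime] [CharP F p] (t : AlgebraicClosure F) :
    ∃ n, 1 ≤ n ∧ t ^ (p ^ n) = t := by
  have : Algebra.IsAlgebraic F (AlgebraicClosure F) := inferInstance
  have hint : IsIntegral F t := (Algebra.IsAlgebraic.isAlgebraic t).isIntegral
  have : FiniteDimensional F (IntermediateField.adjoin F {t}) :=
    IntermediateField.adjoin.finiteDimensional hint
  have : Finite (IntermediateField.adjoin F {t}) := Module.finite_of_finite F
  have : Fintype (IntermediateField.adjoin F {t}) := Fintype.ofFinite _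
  have : CharP (IntermediateField.adjoin F {t}) p := charP_of_injective_algebraMap
    (algebraMap F (IntermediateField.adjoin F {t})).injective p
  obtain ⟨n, _, hcard⟩ := FiniteField.card (IntermediateField.adjoin F {t}) p
  refine ⟨n, n.2, ?_⟩
  have := FiniteField.pow_card (⟨t, IntermediateField.mem_adjoin_simple_self F t⟩ :
    IntermediateField.adjoin F {t})
  rw [hcard] at this
  exact congrArg Subtype.val this

lemma frob_iter {K : Type*} [Monoid K] {p n : ℕ} {t : K} (h : t ^ (p ^ n) = t) (k : ℕ) :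
    t ^ (p ^ (n * k)) = t := by
  induction k with
  | zero => simp
  | succ k ih => rw [mul_add, mul_one, pow_add, pow_mul, ih, h]

/-- For nonzero `t` some `n` has `t * (t ^ (p ^ e)) ^ n = 1`. -/
lemma exists_kill (p : ℕ) [hp : Fact p.Prime] [CharP F p] (t : AlgebraicClosure F) (ht : t ≠ 0)
    (e : ℕ) : ∃ n : ℕ, t * (t ^ (p ^ e)) ^ n = 1 := by
  obtain ⟨r, hr, htr⟩ := exists_frob p t
  set R := r * (e + 1) with hR
  have hRe : e < R := by nlinarith
  have htR : t ^ (p ^ R) = t := frob_iter htr (e + 1)
  have hp1 := hp.out.one_lt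
  have hpR : 1 < p ^ R := Nat.one_lt_pow (by omega) hp1
  set N := p ^ R - 1 with hN
  have hN1 : 1 ≤ N := by omega
  have htN : t ^ N = 1 := by
    have h1 : t ^ N * t = 1 * t := by
      rw [← pow_succ, one_mul]
      have : N + 1 = p ^ R := by omega
      rw [this, htR]
    exact mul_right_cancel₀ ht h1
  set c := p ^ (R - e) with hc
  have hyc : (t ^ (p ^ e)) ^ c = t := by
    rw [← pow_mul, hc, ← pow_add]
    have : e + (R - e) = R := by omega
    rw [this, htR]
  refine ⟨c * (N - 1), ?_⟩
  have h1 : t * (t ^ (p ^ e)) ^ (c * (N - 1)) = t * t ^ (N - 1) := by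
    rw [pow_mul, hyc]
  rw [h1, ← pow_succ']
  have : N - 1 + 1 = N := by omega
  rw [this, htN]

/-- Elements of the algebraic closure of a finite field generate finite sets of powers. -/
lemma finite_powers (p : ℕ) [hp : Fact p.Prime] [CharP F p] (y : AlgebraicClosure F)
    (hy : y ≠ 0) : {x : AlgebraicClosure F | ∃ j : ℕ, x * y ^ j = 1}.Finite := by
  obtain ⟨r, hr, htr⟩ := exists_frob p y
  have hp1 := hp.out.one_lt
  have hpR : 1 < p ^ r := Nat.one_lt_pow (by omega) hp1
  set N := p ^ r - 1 with hN
  have htN : y ^ N = 1 := by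
    have h1 : y ^ N * y = 1 * y := by
      rw [← pow_succ, one_mul]
      have : N + 1 = p ^ r := by omega
      rw [this, htr]
    exact mul_right_cancel₀ hy h1
  have hsub : {x : AlgebraicClosure F | ∃ j : ℕ, x * y ^ j = 1} ⊆
      {x | x ∈ (Polynomial.X ^ N - 1 : Polynomial (AlgebraicClosure F)).roots} := by
    rintro x ⟨j, hj⟩
    have hN0 : N ≠ 0 := by omega
    have hne : (Polynomial.X ^ N - 1 : Polynomial (AlgebraicClosure F)) ≠ 0 :=
      Polynomial.X_pow_sub_C_ne_zero (by omega) 1
    simp only [Set.mem_ofPred_eq]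
    rw [Polynomial.mem_roots hne, Polynomial.IsRoot]
    have hx : x ^ N = 1 := by
      have := congrArg (· ^ N) hj
      simp only [mul_pow, one_pow] at this
      rw [← pow_mul, mul_comm j N, pow_mul, htN, one_pow, mul_one] at this
      exact this
    simp [hx]
  exact (Multiset.finite_toSet _).subset hsub

end FiniteField

/-- The directions of an eventually fixed subvariety lie on a plane curve. -/
lemma exists_curve {F : Type*} [Field F] [Finite F] {Y : Set (Fin 3 → AlgebraicClosure F)}
    (hY : IsGeomNilp (polyMap (ff F)) Y) :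
    ∃ a : MvPolynomial (Fin 2) F, a ≠ 0 ∧ ∀ x y l : AlgebraicClosure F, l ≠ 0 →
      ![l * x, l * y, l] ∈ Y → aeval ![x, y] a = 0 := by
  obtain ⟨p, hchar⟩ := CharP.exists F
  have : Fact p.Prime := ⟨CharP.char_is_prime F p⟩
  obtain ⟨S, hS⟩ := hY.1
  rcases elimination S with h | ⟨b, hb, hall⟩
  · rw [← hS] at h
    exact h
  · exfalso
    -- a point where `b * Y * (Y - 1)` does not vanish
    have hb' : (b.map (algebraMap F (AlgebraicClosure F))) * X 1 * (X 1 - 1) ≠ 0 := by
      refine mul_ne_zero (mul_ne_zero ?_ (MvPolynomial.X_ne_zero 1)) ?_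
      · intro h
        exact hb (MvPolynomial.map_injective _ (algebraMap F (AlgebraicClosure F)).injective
          (by rw [h, map_zero]))
      · intro h
        have := congrArg (MvPolynomial.eval (fun _ => (0 : AlgebraicClosure F))) h
        simp at this
    obtain ⟨v, hv⟩ : ∃ v : Fin 2 → AlgebraicClosure F,
        MvPolynomial.eval v ((b.map (algebraMap F (AlgebraicClosure F))) * X 1 * (X 1 - 1)) ≠ 0 := by
      by_contra hcon
      push Not at hcon
      exact hb' (MvPolynomial.funext fun v => by rw [hcon v, map_zero])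
    rw [map_mul, map_mul, map_sub, map_one, MvPolynomial.eval_X, MvPolynomial.eval_map] at hv
    obtain ⟨hv1, hv2⟩ := mul_ne_zero_iff.1 hv
    obtain ⟨hv3, hv4⟩ := mul_ne_zero_iff.1 hv1
    set y := v 1 with hy
    have hy1 : y ≠ 1 := sub_ne_zero.1 hv2
    -- the polynomial `b (., y)`
    set bb : Polynomial (AlgebraicClosure F) :=
      aeval ![Polynomial.X, Polynomial.C y] b with hbb
    have hbbev : ∀ x, bb.eval x = aeval ![x, y] b := by
      intro x
      have h1 : (Polynomial.aeval x : Polynomial (AlgebraicClosure F) →ₐ[_] _) bb =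
          aeval ![x, y] b := by
        rw [hbb]
        have h2 : ((Polynomial.aeval x : Polynomial (AlgebraicClosure F) →ₐ[AlgebraicClosure F]
            AlgebraicClosure F).restrictScalars F).comp
            (aeval ![Polynomial.X, Polynomial.C y] : MvPolynomial (Fin 2) F →ₐ[F] _) =
            aeval ![x, y] := by
          apply MvPolynomial.algHom_ext
          intro i
          fin_cases i <;> simp
        exact DFunLike.congr_fun h2 b
      rw [← h1, Polynomial.coe_aeval_eq_eval]
    have hbb0 : bb ≠ 0 := by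
      intro h
      apply hv3
      have h1 := hbbev (v 0)
      rw [h, Polynomial.eval_zero] at h1
      have h2 : (![v 0, y] : Fin 2 → AlgebraicClosure F) = v := by
        funext i; fin_cases i <;> rfl
      rw [h2] at h1
      rw [← MvPolynomial.aeval_def]
      exact h1.symm
    -- choose `x`
    have hfin : ({x : AlgebraicClosure F | ∃ j : ℕ, x * y ^ j = 1} ∪
        ({x | x ∈ bb.roots} ∪ {0})).Finite :=
      (finite_powers p y hv4).union ((Multiset.finite_toSet _).union (Set.finite_singleton _))
    obtain ⟨x, hx⟩ := hfin.exists_notMem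
    simp only [Set.mem_union, Set.mem_ofPred_eq, Set.mem_singleton_iff, not_or] at hx
    obtain ⟨hx1, hx2, hx3⟩ := hx
    push Not at hx1
    have hbx : aeval ![x, y] b ≠ 0 := by
      rw [← hbbev]
      intro h
      exact hx2 ((Polynomial.mem_roots hbb0).2 h)
    obtain ⟨l, hl, hmem⟩ := hall x y hbx
    rw [← hS] at hmem
    obtain ⟨m, hm⟩ := hY.eventually_fixed hmem
    exact not_eventually_fixed hl hx3 hv4 hy1 hx1 m hm

/-- **No maximal geometrically nilpotent subvariety.**  Over every finite field `F` there is a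
polynomial self-map `T` of affine three-space such that for every geometrically nilpotent
subvariety `Y` there is a geometrically nilpotent subvariety `Z` that is contained in
`(T^k)⁻¹ (T^m (Y))` for no pair `k, m`. -/
theorem result (F : Type*) [Field F] [Finite F] :
    ∃ f : Fin 3 → MvPolynomial (Fin 3) F,
      ∀ Y : Set (Fin 3 → AlgebraicClosure F), IsGeomNilp (polyMap f) Y →
        ∃ Z : Set (Fin 3 → AlgebraicClosure F), IsGeomNilp (polyMap f) Z ∧
          ∀ k m : ℕ, ¬ (Z ⊆ ((polyMap f)^[k]) ⁻¹' (((polyMap f)^[m]) '' Y)) := by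
  obtain ⟨p, hchar⟩ := CharP.exists F
  have hpF : Fact p.Prime := ⟨CharP.char_is_prime F p⟩
  have hp : p.Prime := hpF.out
  refine ⟨ff F, fun Y hY => ?_⟩
  obtain ⟨a, ha, hvan⟩ := exists_curve hY
  set D := a.degreeOf 0 with hD
  obtain ⟨e, he⟩ : ∃ e, D < p ^ e := ⟨D, Nat.lt_pow_self hp.one_lt⟩
  have hZ : ∀ v : Fin 3 → AlgebraicClosure F,
      v ∈ geomPoints ({X 1 - X 0 ^ (p ^ e), X 2 - 1} : Set (MvPolynomial (Fin 3) F)) ↔
        v = ![1 * v 0, 1 * (v 0) ^ (p ^ e), 1] := by
    intro v
    constructor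
    · intro h
      have h1 := h _ (Set.mem_insert _ _)
      have h2 := h _ (Set.mem_insert_of_mem _ rfl)
      simp only [map_sub, map_pow, aeval_X, map_one] at h1 h2
      funext i
      fin_cases i
      · simp
      · simpa using sub_eq_zero.1 h1
      · simpa using sub_eq_zero.1 h2
    · intro h g hg
      rcases hg with rfl | rfl
      · rw [h]; simp
      · rw [h]; simp
  refine ⟨geomPoints ({X 1 - X 0 ^ (p ^ e), X 2 - 1} : Set (MvPolynomial (Fin 3) F)), ?_, ?_⟩
  · refine isGeomNilp_of_forall (P := ![0, 0, 0]) ⟨_, rfl⟩ ?_ ?_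
    · rw [ff_apply]; simp
    · intro v hv
      rw [(hZ v).1 hv]
      set t := v 0
      by_cases ht : t = 0
      · refine ⟨1, le_refl 1, ?_⟩
        rw [iter]
        simp [lam, ht, hp.ne_zero]
      · obtain ⟨n, hn⟩ := exists_kill p t ht e
        refine ⟨n + 1, by omega, ?_⟩
        rw [iter]
        have : lam 1 t (t ^ (p ^ e)) (n + 1) = 0 := by
          rw [lam, hn]; simp
        rw [this]; simp
  · intro k m hsub
    -- the auxiliary polynomial
    let E : (Fin 2 →₀ ℕ) → ℕ := fun s => (1 + k * p ^ e) * s 0 + p ^ e * (s 1 + m * (D - s 0))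
    set Q : Polynomial (AlgebraicClosure F) :=
      ∑ s ∈ a.support, Polynomial.C (algebraMap F (AlgebraicClosure F) (a.coeff s)) *
        Polynomial.X ^ (E s) with hQ
    have hEinj : ∀ s ∈ a.support, ∀ s' ∈ a.support, E s = E s' → s = s' := by
      intro s hs s' hs' hEE
      have h1 : s 0 ≤ D := MvPolynomial.monomial_le_degreeOf 0 hs
      have h2 : s' 0 ≤ D := MvPolynomial.monomial_le_degreeOf 0 hs'
      have hpe : 0 < p ^ e := Nat.pow_pos hp.pos
      have hmod : s 0 = s' 0 := by
        have h3 : E s % p ^ e = s 0 := by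
          have : E s = s 0 + p ^ e * (k * s 0 + (s 1 + m * (D - s 0))) := by
            simp only [E]; ring
          rw [this, Nat.add_mul_mod_self_left, Nat.mod_eq_of_lt (by omega)]
        have h4 : E s' % p ^ e = s' 0 := by
          have : E s' = s' 0 + p ^ e * (k * s' 0 + (s' 1 + m * (D - s' 0))) := by
            simp only [E]; ring
          rw [this, Nat.add_mul_mod_self_left, Nat.mod_eq_of_lt (by omega)]
        rw [← h3, ← h4, hEE]
      have h5 : s 1 = s' 1 := by
        simp only [E, hmod] at hEE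
        have h6 := Nat.add_left_cancel hEE
        have h7 := Nat.eq_of_mul_eq_mul_left hpe h6
        omega
      ext i
      fin_cases i
      · exact hmod
      · exact h5
    have hQ0 : Q ≠ 0 := by
      obtain ⟨s, hs⟩ := (MvPolynomial.support_nonempty).2 ha
      intro hz
      have hco : Q.coeff (E s) = algebraMap F (AlgebraicClosure F) (a.coeff s) := by
        rw [hQ, Polynomial.finsetSum_coeff, Finset.sum_eq_single s]
        · simp
        · intro s' hs' hne
          rw [Polynomial.coeff_C_mul, Polynomial.coeff_X_pow, if_neg, mul_zero]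
          intro h
          exact hne (hEinj s' hs' s hs h.symm)
        · intro h; exact absurd hs h
      rw [hz, Polynomial.coeff_zero] at hco
      have h1 : a.coeff s = 0 :=
        (algebraMap F (AlgebraicClosure F)).injective (by rw [← hco, map_zero])
      exact (MvPolynomial.mem_support_iff.1 hs) h1
    -- choose `t`
    set W : Polynomial (AlgebraicClosure F) := Q * Polynomial.X *
      ∏ n ∈ Finset.range k, (Polynomial.X ^ (1 + n * p ^ e) - 1) with hW
    have hW0 : W ≠ 0 := by
      refine mul_ne_zero (mul_ne_zero hQ0 Polynomial.X_ne_zero) (Finset.prod_ne_zero_iff.2 ?_)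
      intro n _
      exact Polynomial.X_pow_sub_C_ne_zero (by omega) 1
    obtain ⟨t, ht⟩ : ∃ t : AlgebraicClosure F, W.eval t ≠ 0 := by
      by_contra hcon
      push Not at hcon
      exact hW0 (Polynomial.funext fun t => by rw [hcon t, Polynomial.eval_zero])
    rw [hW, Polynomial.eval_mul, Polynomial.eval_mul, Polynomial.eval_X,
      Polynomial.eval_prod] at ht
    obtain ⟨ht1, ht2⟩ := mul_ne_zero_iff.1 ht
    obtain ⟨ht3, ht4⟩ := mul_ne_zero_iff.1 ht1
    have ht5 : ∀ n < k, t * (t ^ (p ^ e)) ^ n ≠ 1 := by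
      intro n hn h
      have := (Finset.prod_ne_zero_iff.1 ht2) n (Finset.mem_range.2 hn)
      apply this
      have h1 : t ^ (1 + n * p ^ e) = 1 := by
        rw [pow_add, pow_one, mul_comm n, pow_mul]; exact h
      simp [h1]
    have hte : t ^ (p ^ e) ≠ 0 := pow_ne_zero _ ht4
    -- the point of `Z`
    have hmem : (![1 * t, 1 * t ^ (p ^ e), 1] : Fin 3 → AlgebraicClosure F) ∈
        geomPoints ({X 1 - X 0 ^ (p ^ e), X 2 - 1} : Set (MvPolynomial (Fin 3) F)) := by
      rw [hZ]; simp
    obtain ⟨w, hwY, hw⟩ := hsub hmem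
    rw [iter] at hw
    have hl := lam_ne_zero (l := (1 : AlgebraicClosure F)) one_ne_zero hte ht5
    -- the last coordinate of `w` is nonzero
    have hw2 : w 2 ≠ 0 := by
      intro h0
      have hz : ∀ j, ((polyMap (ff F))^[j] w) 2 = 0 := by
        intro j
        induction j with
        | zero => exact h0
        | succ j ih =>
          rw [Function.iterate_succ_apply', ff_apply]
          simp [ih]
      have := hz m
      rw [hw] at this
      exact hl (by simpa using this)
    set x' := w 0 / w 2 with hx'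
    set y' := w 1 / w 2 with hy'
    have hwform : w = ![w 2 * x', w 2 * y', w 2] := by
      funext i
      fin_cases i
      · simp [hx']; field_simp
      · simp [hy']; field_simp
      · simp
    have hwa : aeval ![x', y'] a = 0 := hvan x' y' (w 2) hw2 (by rw [← hwform]; exact hwY)
    rw [hwform, iter] at hw
    have e2 : lam (w 2) x' y' m = lam 1 t (t ^ p ^ e) k := by simpa using congrFun hw 2
    have e1 : lam (w 2) x' y' m * y' = lam 1 t (t ^ p ^ e) k * t ^ p ^ e := by
      simpa using congrFun hw 1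
    have e0 : lam (w 2) x' y' m * (x' * y' ^ m) =
        lam 1 t (t ^ p ^ e) k * (t * (t ^ p ^ e) ^ k) := by
      simpa using congrFun hw 0
    rw [e2] at e1 e0
    have hy1 : y' = t ^ p ^ e := mul_left_cancel₀ hl e1
    have hx1 : x' * y' ^ m = t * (t ^ p ^ e) ^ k := mul_left_cancel₀ hl e0
    -- evaluate
    apply ht3
    have hval : Q.eval t = y' ^ (m * D) * aeval ![x', y'] a := by
      rw [hQ, Polynomial.eval_finsetSum, MvPolynomial.aeval_def, MvPolynomial.eval₂_eq',
        Finset.mul_sum]
      refine Finset.sum_congr rfl fun s hs => ?_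
      have h1 : s 0 ≤ D := MvPolynomial.monomial_le_degreeOf 0 hs
      rw [Polynomial.eval_mul, Polynomial.eval_C, Polynomial.eval_pow, Polynomial.eval_X,
        Fin.prod_univ_two]
      simp only [Matrix.cons_val_zero, Matrix.cons_val_one]
      have h2 : t ^ E s = y' ^ (m * D) * (x' ^ s 0 * y' ^ s 1) := by
        have h3 : y' ^ (m * D) = (y' ^ m) ^ (s 0) * y' ^ (m * (D - s 0)) := by
          rw [← pow_mul, ← pow_add]
          congr 1
          rw [← mul_add]
          congr 1
          omega
        calc t ^ E s = (t * (t ^ p ^ e) ^ k) ^ (s 0) * (t ^ p ^ e) ^ (s 1 + m * (D - s 0)) := by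
              simp only [E]
              rw [pow_add, ← pow_mul t (p ^ e) k, ← pow_succ', ← pow_mul, ← pow_mul]
              congr 2
              ring
          _ = (x' * y' ^ m) ^ (s 0) * y' ^ (s 1 + m * (D - s 0)) := by rw [hx1, hy1]
          _ = _ := by rw [h3, mul_pow, pow_add]; ring
      rw [h2]
      ring
    rw [hval, hwa, mul_zero]

end Pool.Agent.Results.MP_b41bf9_ag.NoMaximal
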